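import Pool.Agent.helper72.ODK.Spec

set_option autoImplicit false

namespace Pool.Agent.helper72.UP

open Finset

private lemma ASWc_sub (x y : ℕ) (u : ℝ) (hu : 0 ≤ u) (h : (x : ℝ) - y ≤ u) : ((x - y : ℕ) : ℝ) ≤ u := by
  rcases le_total y x with h1 | h1
  · rw [Nat.cast_sub h1]
    exact h
  · rw [Nat.sub_eq_zero_of_le h1]
    simpa using hu

theorem ASW (fiw : FIW_stmt) : ASW_stmt := by
  obtain ⟨N0, hN0⟩ : ∃ N0 : ℕ, N0 = ⌈Real.exp 400⌉₊ := ⟨_, rfl⟩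
  obtain ⟨M0, hM0⟩ : ∃ M0 : ℕ, M0 = 4194304 := ⟨_, rfl⟩
  refine ⟨N0 + M0, ?_⟩
  intro n hn K hK1 hK2
  have hn1 : Real.exp 400 ≤ n := by
    have h1 := Nat.le_ceil (Real.exp 400)
    rw [← hN0] at h1
    have h2 : N0 ≤ n := by omega
    have h3 : (N0 : ℝ) ≤ n := Nat.cast_le.2 h2
    linarith
  have hn2 : M0 ≤ n := by omega
  have hn3 : (4194304 : ℝ) ≤ n := by
    have h1 : (M0 : ℝ) ≤ n := Nat.cast_le.2 hn2
    rw [hM0] at h1
    simpa using h1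
  have hnpos : (0 : ℝ) < n := by linarith
  obtain ⟨l, hl⟩ : ∃ l : ℝ, l = Real.log n := ⟨_, rfl⟩
  have hl400 : 400 ≤ l := by
    rw [hl, ← Real.log_exp 400]
    exact Real.log_le_log (Real.exp_pos _) hn1
  obtain ⟨r, hrdef⟩ : ∃ r : ℝ, r = Real.sqrt n := ⟨_, rfl⟩
  have hr : r * r = n := by rw [hrdef]; exact Real.mul_self_sqrt hnpos.le
  have hr0 : 2048 ≤ r := by
    rw [hrdef]
    apply Real.le_sqrt_of_sq_le
    norm_num
    linarith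
  have hrpos : 0 < r := by linarith
  have hlr : l ≤ 2 * r := by
    have h1 : l = Real.log r + Real.log r := by
      rw [hl, ← hr, Real.log_mul hrpos.ne' hrpos.ne']
    have h2 := Real.log_le_sub_one_of_pos hrpos
    linarith
  obtain ⟨s, hsdef⟩ : ∃ s : ℝ, s = Real.sqrt (n * l) := ⟨_, rfl⟩
  have hs2 : s * s = n * l := by rw [hsdef]; exact Real.mul_self_sqrt (by positivity)
  have hs0 : 0 ≤ s := by rw [hsdef]; exact Real.sqrt_nonneg _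
  have hrn : r ≤ n / 2048 := by nlinarith
  have hsn : s ≤ n / 32 := by
    rw [hsdef]
    apply Real.sqrt_le_iff.2
    refine ⟨by positivity, ?_⟩
    have h1 : l ≤ n / 1024 := by linarith
    nlinarith
  have hK : (K : ℝ) ≤ n / 4 + s / 16 - 1 / 2 := by
    rw [← hl, ← hsdef] at hK2
    push_cast at hK2
    linarith
  obtain ⟨u, hu⟩ : ∃ u : ℝ, u = s / 16 + 2 * r := ⟨_, rfl⟩
  have hu0 : 0 ≤ u := by rw [hu]; positivity
  have hu1 : u ≤ n / 256 := by rw [hu]; linarith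
  have hu2 : u ^ 2 ≤ n * l / 128 + 8 * n := by
    rw [hu]
    nlinarith [sq_nonneg (s / 16 - 2 * r)]
  have hm : (n : ℝ) / 4 - 3 / 4 ≤ ((n / 2 / 2 : ℕ) : ℝ) := by
    have h1 : n ≤ 4 * (n / 2 / 2) + 3 := by omega
    have h2 : (n : ℝ) ≤ 4 * ((n / 2 / 2 : ℕ) : ℝ) + 3 := by exact_mod_cast h1
    linarith
  have hm' : (n : ℝ) / 4 - 1 ≤ (((n - 1) / 2 / 2 : ℕ) : ℝ) := by
    have h1 : n ≤ 4 * ((n - 1) / 2 / 2) + 4 := by omega
    have h2 : (n : ℝ) ≤ 4 * (((n - 1) / 2 / 2 : ℕ) : ℝ) + 4 := by exact_mod_cast h1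
    linarith
  have ha : (n : ℝ) / 2 ≤ (((n - 1) / 2 : ℕ) : ℝ) + 2 := by
    have h1 : n ≤ 2 * ((n - 1) / 2) + 4 := by omega
    have h2 : (n : ℝ) ≤ 2 * (((n - 1) / 2 : ℕ) : ℝ) + 4 := by exact_mod_cast h1
    linarith
  have han : (((n - 1) / 2 : ℕ) : ℝ) ≤ n := by
    have h1 : (n - 1) / 2 ≤ n := by omega
    exact_mod_cast h1
  have hy : ((K + 1 - n / 2 / 2 : ℕ) : ℝ) ≤ u := by
    apply ASWc_sub _ _ _ hu0
    push_cast
    have h1 : (((n / 2 / 2 : ℕ)) : ℝ) = ((n / 2 / 2 : ℕ) : ℝ) := rfl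
    rw [hu]
    linarith
  have hq : (2 * Nat.sqrt (n / 2) : ℝ) ≤ 3 / 2 * r := by
    have h1 : Nat.sqrt (n / 2) * Nat.sqrt (n / 2) ≤ n / 2 := Nat.sqrt_le _
    have h2 : 2 * (Nat.sqrt (n / 2) * Nat.sqrt (n / 2)) ≤ n := by omega
    have h3 : 2 * ((Nat.sqrt (n / 2) : ℝ) * (Nat.sqrt (n / 2) : ℝ)) ≤ n := by exact_mod_cast h2
    have h4 : (2 * (Nat.sqrt (n / 2) : ℝ)) ^ 2 ≤ (3 / 2 * r) ^ 2 := by nlinarith
    exact le_of_sq_le_sq h4 (by positivity)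
  have hy' : ((K - 1 + 2 * (Nat.sqrt (n / 2) + 1) - (n - 1) / 2 / 2 : ℕ) : ℝ) ≤ u := by
    apply ASWc_sub _ _ _ hu0
    have h1 : ((K - 1 + 2 * (Nat.sqrt (n / 2) + 1) : ℕ) : ℝ) ≤ K + 1 + 2 * Nat.sqrt (n / 2) := by
      have h2 : K - 1 + 2 * (Nat.sqrt (n / 2) + 1) ≤ K + 1 + 2 * Nat.sqrt (n / 2) := by omega
      exact_mod_cast h2
    rw [hu]
    linarith
  apply fiw n K (by
    rw [hM0] at hn2
    exact le_trans (by norm_num) hn2) hK1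
  · have h1 : (2 * K : ℝ) ≤ n := by linarith
    have h2 : 2 * K ≤ n := by exact_mod_cast h1
    omega
  · have h1 : (4 : ℝ) * ((K + 1 - n / 2 / 2 : ℕ) : ℝ) ≤ ((n / 2 / 2 : ℕ) : ℝ) + 1 := by linarith
    exact_mod_cast h1
  · have h1 : (4 : ℝ) * ((K - 1 + 2 * (Nat.sqrt (n / 2) + 1) - (n - 1) / 2 / 2 : ℕ) : ℝ) ≤ (((n - 1) / 2 / 2 : ℕ) : ℝ) + 1 := by linarith
    exact_mod_cast h1
  · have e1 : 2 * ((K + 1 - n / 2 / 2 : ℕ) : ℝ) ^ 2 / (((n / 2 / 2 : ℕ) : ℝ) + 1) ≤ 8 * u ^ 2 / n := by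
      rw [div_le_div_iff₀ (by positivity) hnpos]
      have h1 : ((K + 1 - n / 2 / 2 : ℕ) : ℝ) ^ 2 ≤ u ^ 2 := pow_le_pow_left₀ (Nat.cast_nonneg _) hy 2
      have h2 : (n : ℝ) ≤ 4 * (((n / 2 / 2 : ℕ) : ℝ) + 1) := by linarith
      have h3 := mul_le_mul h1 h2 hnpos.le (by positivity)
      linarith
    have e2 : 2 * ((K - 1 + 2 * (Nat.sqrt (n / 2) + 1) - (n - 1) / 2 / 2 : ℕ) : ℝ) ^ 2 / ((((n - 1) / 2 / 2 : ℕ) : ℝ) + 1) ≤ 8 * u ^ 2 / n := by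
      rw [div_le_div_iff₀ (by positivity) hnpos]
      have h1 : ((K - 1 + 2 * (Nat.sqrt (n / 2) + 1) - (n - 1) / 2 / 2 : ℕ) : ℝ) ^ 2 ≤ u ^ 2 := pow_le_pow_left₀ (Nat.cast_nonneg _) hy' 2
      have h2 : (n : ℝ) ≤ 4 * ((((n - 1) / 2 / 2 : ℕ) : ℝ) + 1) := by linarith
      have h3 := mul_le_mul h1 h2 hnpos.le (by positivity)
      linarith
    have e3 : 8 * u ^ 2 / n ≤ l / 16 + 64 := by
      rw [div_le_iff₀ hnpos]
      linarith
    have e4 : Real.exp (-(l / 8 + 128)) ≤ Real.exp (-(2 * ((K + 1 - n / 2 / 2 : ℕ) : ℝ) ^ 2 / ((n / 2 / 2 : ℕ) + 1)) - 2 * ((K - 1 + 2 * (Nat.sqrt (n / 2) + 1) - (n - 1) / 2 / 2 : ℕ) : ℝ) ^ 2 / (((n - 1) / 2 / 2 : ℕ) + 1)) := by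
      apply Real.exp_le_exp.2
      linarith
    have e5 : Real.sqrt (((n - 1) / 2 : ℕ) : ℝ) ≤ r := by
      rw [hrdef]
      exact Real.sqrt_le_sqrt han
    have e6 : r = Real.exp (l / 2) := by
      have h1 : r = Real.exp (Real.log r) := (Real.exp_log hrpos).symm
      have h2 : l = Real.log r + Real.log r := by
        rw [hl, ← hr, Real.log_mul hrpos.ne' hrpos.ne']
      rw [h1, h2]
      congr 1
      ring
    have e7 : (n : ℝ) = Real.exp l := by rw [hl, Real.exp_log hnpos]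
    have e8 : 24 * Real.exp (l / 2) < Real.exp l * Real.exp (-(l / 8 + 128)) := by
      have h24 : (24 : ℝ) ≤ Real.exp 4 := by
        have h1 := Real.add_one_le_exp (1 : ℝ)
        have h2 : Real.exp 4 = Real.exp 1 ^ 4 := by
          rw [← Real.exp_nat_mul]
          norm_num
        have h3 := Real.exp_one_gt_d9
        rw [h2]
        have h4 : (2.7 : ℝ) ≤ Real.exp 1 := by linarith
        have h5 : (2.7 : ℝ) ^ 4 ≤ Real.exp 1 ^ 4 := pow_le_pow_left₀ (by norm_num) h4 4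
        norm_num at h5
        linarith
      have h1 : 24 * Real.exp (l / 2) ≤ Real.exp 4 * Real.exp (l / 2) := mul_le_mul_of_nonneg_right h24 (Real.exp_pos _).le
      refine lt_of_le_of_lt h1 ?_
      rw [← Real.exp_add, ← Real.exp_add]
      apply Real.exp_lt_exp.2
      linarith
    have e9 : 12 * Real.sqrt (((n - 1) / 2 : ℕ) : ℝ) ≤ 12 * Real.exp (l / 2) := by
      rw [← e6]
      linarith
    have e10 : (n : ℝ) / 2 * Real.exp (-(l / 8 + 128)) ≤ ((((n - 1) / 2 : ℕ) : ℝ) + 2) *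
        Real.exp (-(2 * ((K + 1 - n / 2 / 2 : ℕ) : ℝ) ^ 2 / ((n / 2 / 2 : ℕ) + 1)) - 2 * ((K - 1 + 2 * (Nat.sqrt (n / 2) + 1) - (n - 1) / 2 / 2 : ℕ) : ℝ) ^ 2 / (((n - 1) / 2 / 2 : ℕ) + 1)) :=
      mul_le_mul ha e4 (Real.exp_pos _).le (by positivity)
    rw [e7] at e10
    linarith

end Pool.Agent.helper72.UP
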